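import Pool.Agent.helper41.HFE.Spec

set_option autoImplicit false

open Polynomial Module Pool.Agent.HFN

namespace Pool.Agent.HFE

noncomputable section

lemma GEN_snd {a b c d u w w' : ℂ} (hD : a * d - b * c ≠ 0) (h : a * u * w + b * w + c * u + d = 0)
    (h' : a * u * w' + b * w' + c * u + d = 0) : w = w' := by
  by_contra hne
  have h1 : (a * u + b) * (w - w') = 0 := by linear_combination h - h'
  have h2 : a * u + b = 0 := by
    rcases mul_eq_zero.1 h1 with h3 | h3
    · exact h3
    · exact absurd (sub_eq_zero.1 h3) hne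
  have h3 : c * u + d = 0 := by linear_combination h - w * h2
  exact hD (by linear_combination a * h3 - c * h2)

lemma GEN_fst {a b c d u u' w : ℂ} (hD : a * d - b * c ≠ 0) (h : a * u * w + b * w + c * u + d = 0)
    (h' : a * u' * w + b * w + c * u' + d = 0) : u = u' := by
  by_contra hne
  have h1 : (a * w + c) * (u - u') = 0 := by linear_combination h - h'
  have h2 : a * w + c = 0 := by
    rcases mul_eq_zero.1 h1 with h3 | h3
    · exact h3
    · exact absurd (sub_eq_zero.1 h3) hne
  have h3 : b * w + d = 0 := by linear_combination h - u * h2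
  exact hD (by linear_combination a * h3 - b * h2)

lemma GEN_step (hGE3 : GE3_stmt) (n : ℕ) (z : Fin n → ℂ) (hz : Gz n z) : ∃ z' : Fin (n + 1) → ℂ, Gz (n + 1) z' := by
  classical
  obtain ⟨hinj, hG⟩ := hz
  have hfin := (hGE3 n z).union (Set.finite_range z)
  obtain ⟨t, ht⟩ := hfin.exists_notMem
  rw [Set.mem_union, not_or] at ht
  obtain ⟨ht1, ht2⟩ := ht
  obtain ⟨z', hz'⟩ : ∃ z' : Fin (n + 1) → ℂ, z' = Fin.cons t z := ⟨_, rfl⟩
  have hz0 : z' 0 = t := by rw [hz', Fin.cons_zero]
  have hzs : ∀ k : Fin n, z' k.succ = z k := fun k => by rw [hz', Fin.cons_succ]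
  have hinj' : Function.Injective z' := by
    rw [hz']
    exact Fin.cons_injective_iff.2 ⟨ht2, hinj⟩
  refine ⟨z', hinj', ?_⟩
  intro a b c d hD hnd S hS
  -- different pairs have different components
  have hF : ∀ p ∈ S, ∀ q ∈ S, p.1 = q.1 → p = q := by
    intro p hp q hq h
    have h1 := hS p hp
    have h2 := hS q hq
    rw [h] at h1
    exact Prod.ext h (hinj' (GEN_snd hD h1 h2))
  have hE : ∀ p ∈ S, ∀ q ∈ S, p.2 = q.2 → p = q := by
    intro p hp q hq h
    have h1 := hS p hp
    have h2 := hS q hq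
    rw [h] at h1
    exact Prod.ext (hinj' (GEN_fst hD h1 h2)) h
  obtain ⟨S1, hS1⟩ : ∃ S1 : Finset (Fin (n + 1) × Fin (n + 1)), S1 = S.filter fun p => p.1 = 0 := ⟨_, rfl⟩
  obtain ⟨S2, hS2⟩ : ∃ S2 : Finset (Fin (n + 1) × Fin (n + 1)), S2 = S.filter fun p => p.2 = 0 := ⟨_, rfl⟩
  obtain ⟨T, hT⟩ : ∃ T : Finset (Fin n × Fin n), T = Finset.univ.filter fun p => (p.1.succ, p.2.succ) ∈ S := ⟨_, rfl⟩
  have hTm : ∀ p : Fin n × Fin n, p ∈ T ↔ (p.1.succ, p.2.succ) ∈ S := by
    intro p
    rw [hT, Finset.mem_filter]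
    exact ⟨fun h => h.2, fun h => ⟨Finset.mem_univ _, h⟩⟩
  have hTe : ∀ p ∈ T, a * z p.1 * z p.2 + b * z p.2 + c * z p.1 + d = 0 := by
    intro p hp
    have h := hS _ ((hTm p).1 hp)
    simp only [hzs] at h
    exact h
  have hT4 : T.card ≤ 4 := hG a b c d hD hnd T hTe
  have hc1 : S1.card ≤ 1 := by
    rw [Finset.card_le_one]
    intro p hp q hq
    rw [hS1, Finset.mem_filter] at hp hq
    exact hF p hp.1 q hq.1 (hp.2.trans hq.2.symm)
  have hc2 : S2.card ≤ 1 := by
    rw [Finset.card_le_one]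
    intro p hp q hq
    rw [hS2, Finset.mem_filter] at hp hq
    exact hE p hp.1 q hq.1 (hp.2.trans hq.2.symm)
  have hsub : S ⊆ (T.image fun p => (p.1.succ, p.2.succ)) ∪ (S1 ∪ S2) := by
    rintro ⟨p1, p2⟩ hp
    rw [Finset.mem_union, Finset.mem_union]
    by_cases h1 : p1 = 0
    · right
      left
      rw [hS1, Finset.mem_filter]
      exact ⟨hp, h1⟩
    · by_cases h2 : p2 = 0
      · right
        right
        rw [hS2, Finset.mem_filter]
        exact ⟨hp, h2⟩
      · left
        obtain ⟨k, rfl⟩ := Fin.exists_succ_eq.2 h1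
        obtain ⟨l, rfl⟩ := Fin.exists_succ_eq.2 h2
        rw [Finset.mem_image]
        exact ⟨(k, l), (hTm (k, l)).2 hp, rfl⟩
  have hcard : S.card ≤ T.card + (S1 ∪ S2).card :=
    ((Finset.card_le_card hsub).trans (Finset.card_union_le _ _)).trans (Nat.add_le_add_right Finset.card_image_le _)
  by_cases hem : S1 ∪ S2 = ∅
  · rw [hem, Finset.card_empty] at hcard
    omega
  have h12 : (S1 ∪ S2).card ≤ S1.card + S2.card := Finset.card_union_le _ _
  by_contra hlt
  have hT3 : 3 ≤ T.card := by omega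
  obtain ⟨T', hT', hT'c⟩ := Finset.exists_subset_card_eq hT3
  obtain ⟨e⟩ : Nonempty (T' ≃ Fin 3) := ⟨T'.equivFinOfCardEq hT'c⟩
  apply ht1
  refine ⟨a, b, c, d, hD, hnd, ⟨fun k => (e.symm k).1, ?_, ?_⟩, ?_⟩
  · intro k l hkl
    have h1 : ((e.symm k).1 : Fin n × Fin n).1 = ((e.symm l).1 : Fin n × Fin n).1 := hinj hkl
    have hk := (hTm _).1 (hT' (e.symm k).2)
    have hl := (hTm _).1 (hT' (e.symm l).2)
    have h2 := hF _ hk _ hl (by rw [h1])
    have h3 : ((e.symm k).1 : Fin n × Fin n).2 = ((e.symm l).1 : Fin n × Fin n).2 :=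
      Fin.succ_injective _ (congrArg Prod.snd h2)
    exact e.symm.injective (Subtype.ext (Prod.ext h1 h3))
  · intro k
    exact hTe _ (hT' (e.symm k).2)
  · obtain ⟨⟨p1, p2⟩, hp⟩ := Finset.nonempty_iff_ne_empty.2 hem
    rw [Finset.mem_union, hS1, hS2, Finset.mem_filter, Finset.mem_filter] at hp
    rcases hp with ⟨hpS, hp0⟩ | ⟨hpS, hp0⟩
    · have h := hS _ hpS
      have hp0' : p1 = 0 := hp0
      subst hp0'
      by_cases h2 : p2 = 0
      · subst h2
        right
        right
        simp only [hz0] at h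
        exact h
      · obtain ⟨l, rfl⟩ := Fin.exists_succ_eq.2 h2
        left
        simp only [hz0, hzs] at h
        exact ⟨l, h⟩
    · have h := hS _ hpS
      have hp0' : p2 = 0 := hp0
      subst hp0'
      by_cases h2 : p1 = 0
      · subst h2
        right
        right
        simp only [hz0] at h
        exact h
      · obtain ⟨l, rfl⟩ := Fin.exists_succ_eq.2 h2
        right
        left
        simp only [hz0, hzs] at h
        exact ⟨l, h⟩

theorem GEN : GEN_stmt := by
  intro hGE3 n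
  induction n with
  | zero =>
    refine ⟨Fin.elim0, fun x => x.elim0, ?_⟩
    intro a b c d _ _ S _
    have h : S = ∅ := by
      rw [Finset.eq_empty_iff_forall_notMem]
      intro p
      exact p.1.elim0
    rw [h, Finset.card_empty]
    omega
  | succ n ih =>
    obtain ⟨z, hz⟩ := ih
    exact GEN_step hGE3 n z hz

end

end Pool.Agent.HFE
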